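import Mathlib

set_option autoImplicit false

/-!
# Codes for oracle computations

A countable type of codes for the operations in `Nat.RecursiveIn`, and the finite use principle.
-/

namespace Pool.Agent.U89.Muchnik

/-- codes for functions computable in an oracle -/
inductive Cd : Type
  | zero | succ | left | right | oracle
  | pair (a b : Cd) | comp (a b : Cd) | prec (a b : Cd) | rfind (a : Cd)

namespace Cd

/-- the number of a code -/
def toNat : Cd → ℕ
  | zero => 0
  | succ => 1
  | left => 2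
  | right => 3
  | oracle => 4
  | pair a b => 5 + 4 * Nat.pair a.toNat b.toNat
  | comp a b => 6 + 4 * Nat.pair a.toNat b.toNat
  | prec a b => 7 + 4 * Nat.pair a.toNat b.toNat
  | rfind a => 8 + 4 * a.toNat

theorem toNat_inj : ∀ a b : Cd, a.toNat = b.toNat → a = b := by
  intro a
  induction a with
  | zero => intro b h; cases b <;> simp only [toNat] at h <;> first | rfl | omega
  | succ => intro b h; cases b <;> simp only [toNat] at h <;> first | rfl | omega
  | left => intro b h; cases b <;> simp only [toNat] at h <;> first | rfl | omega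
  | right => intro b h; cases b <;> simp only [toNat] at h <;> first | rfl | omega
  | oracle => intro b h; cases b <;> simp only [toNat] at h <;> first | rfl | omega
  | pair a1 a2 ih1 ih2 =>
    intro b h
    cases b with
    | pair b1 b2 =>
      simp only [toNat] at h
      have h' : Nat.pair a1.toNat a2.toNat = Nat.pair b1.toNat b2.toNat := by omega
      rw [Nat.pair_eq_pair] at h'
      rw [ih1 _ h'.1, ih2 _ h'.2]
    | _ => simp only [toNat] at h; omega
  | comp a1 a2 ih1 ih2 =>
    intro b h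
    cases b with
    | comp b1 b2 =>
      simp only [toNat] at h
      have h' : Nat.pair a1.toNat a2.toNat = Nat.pair b1.toNat b2.toNat := by omega
      rw [Nat.pair_eq_pair] at h'
      rw [ih1 _ h'.1, ih2 _ h'.2]
    | _ => simp only [toNat] at h; omega
  | prec a1 a2 ih1 ih2 =>
    intro b h
    cases b with
    | prec b1 b2 =>
      simp only [toNat] at h
      have h' : Nat.pair a1.toNat a2.toNat = Nat.pair b1.toNat b2.toNat := by omega
      rw [Nat.pair_eq_pair] at h'
      rw [ih1 _ h'.1, ih2 _ h'.2]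
    | _ => simp only [toNat] at h; omega
  | rfind a1 ih1 =>
    intro b h
    cases b with
    | rfind b1 =>
      simp only [toNat] at h
      rw [ih1 b1 (by omega)]
    | _ => simp only [toNat] at h; omega

instance : Countable Cd := Function.Injective.countable fun a b => toNat_inj a b

instance : Nonempty Cd := ⟨zero⟩

/-- evaluation -/
def ev (g : ℕ →. ℕ) : Cd → (ℕ →. ℕ)
  | zero => fun _ => 0
  | succ => Nat.succ
  | left => fun n => (Nat.unpair n).1
  | right => fun n => (Nat.unpair n).2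
  | oracle => g
  | pair a b => fun n => (Nat.pair <$> ev g a n <*> ev g b n)
  | comp a b => fun n => ev g b n >>= ev g a
  | prec a b => fun p =>
        let (a', n) := Nat.unpair p
        n.rec (ev g a a') fun y IH => do
          let i ← IH
          ev g b (Nat.pair a' (Nat.pair y i))
  | rfind a => fun a' => Nat.rfind fun n => (fun m => m = 0) <$> ev g a (Nat.pair a' n)

theorem exists_code {g f : ℕ →. ℕ} (h : Nat.RecursiveIn {g} f) : ∃ c : Cd, ev g c = f := by
  induction h with
  | zero => exact ⟨zero, rfl⟩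
  | succ => exact ⟨succ, rfl⟩
  | left => exact ⟨left, rfl⟩
  | right => exact ⟨right, rfl⟩
  | oracle k hk =>
    obtain rfl : k = g := hk
    exact ⟨oracle, rfl⟩
  | pair _ _ ih1 ih2 =>
    obtain ⟨c1, rfl⟩ := ih1
    obtain ⟨c2, rfl⟩ := ih2
    exact ⟨pair c1 c2, rfl⟩
  | comp _ _ ih1 ih2 =>
    obtain ⟨c1, rfl⟩ := ih1
    obtain ⟨c2, rfl⟩ := ih2
    exact ⟨comp c1 c2, rfl⟩
  | prec _ _ ih1 ih2 =>
    obtain ⟨c1, rfl⟩ := ih1
    obtain ⟨c2, rfl⟩ := ih2
    exact ⟨prec c1 c2, rfl⟩
  | rfind _ ih1 =>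
    obtain ⟨c1, rfl⟩ := ih1
    exact ⟨rfind c1, rfl⟩

/-- the two functions agree below `N` -/
def Agree (x y : ℕ → ℕ) (N : ℕ) : Prop := ∀ i < N, x i = y i

theorem Agree.mono {x y : ℕ → ℕ} {N M : ℕ} (h : Agree x y N) (hM : M ≤ N) : Agree x y M :=
  fun i hi => h i (lt_of_lt_of_le hi hM)

/-- the finite use principle -/
theorem use (x : ℕ → ℕ) (c : Cd) : ∀ n v : ℕ, v ∈ ev (PFun.lift x) c n →
    ∃ N : ℕ, ∀ y : ℕ → ℕ, Agree x y N → v ∈ ev (PFun.lift y) c n := by
  induction c with
  | zero => exact fun n v h => ⟨0, fun y _ => h⟩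
  | succ => exact fun n v h => ⟨0, fun y _ => h⟩
  | left => exact fun n v h => ⟨0, fun y _ => h⟩
  | right => exact fun n v h => ⟨0, fun y _ => h⟩
  | oracle =>
    intro n v h
    refine ⟨n + 1, fun y hy => ?_⟩
    simp only [ev, PFun.lift, Part.mem_some_iff] at h ⊢
    rw [h, hy n (Nat.lt_succ_self n)]
  | pair a b iha ihb =>
    intro n v h
    simp only [ev, Seq.seq, Part.map_eq_map, Part.mem_bind_iff,
      Part.mem_map_iff] at h
    obtain ⟨f, ⟨u, hu, rfl⟩, w, hw, rfl⟩ := h
    obtain ⟨N1, h1⟩ := iha n u hu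
    obtain ⟨N2, h2⟩ := ihb n w hw
    refine ⟨max N1 N2, fun y hy => ?_⟩
    simp only [ev, Seq.seq, Part.map_eq_map, Part.mem_bind_iff,
      Part.mem_map_iff]
    exact ⟨_, ⟨u, h1 y (hy.mono (le_max_left _ _)), rfl⟩, w, h2 y (hy.mono (le_max_right _ _)), rfl⟩
  | comp a b iha ihb =>
    intro n v h
    change v ∈ (ev (PFun.lift x) b n).bind (ev (PFun.lift x) a) at h
    obtain ⟨u, hu, hv⟩ := Part.mem_bind_iff.1 h
    obtain ⟨N1, h1⟩ := ihb n u hu
    obtain ⟨N2, h2⟩ := iha u v hv
    refine ⟨max N1 N2, fun y hy => ?_⟩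
    change v ∈ (ev (PFun.lift y) b n).bind (ev (PFun.lift y) a)
    exact Part.mem_bind_iff.2
      ⟨u, h1 y (hy.mono (le_max_left _ _)), h2 y (hy.mono (le_max_right _ _))⟩
  | prec a b iha ihb =>
    intro p v h
    simp only [ev] at h ⊢
    generalize (Nat.unpair p).1 = a' at h ⊢
    generalize (Nat.unpair p).2 = n at h ⊢
    induction n generalizing v with
    | zero =>
      obtain ⟨N, hN⟩ := iha a' v h
      exact ⟨N, fun y hy => hN y hy⟩
    | succ n ihn =>
      simp only [Part.bind_eq_bind, Part.mem_bind_iff] at h ⊢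
      obtain ⟨u, hu, hv⟩ := h
      obtain ⟨N1, h1⟩ := ihn u hu
      obtain ⟨N2, h2⟩ := ihb _ v hv
      refine ⟨max N1 N2, fun y hy => ?_⟩
      exact ⟨u, h1 y (hy.mono (le_max_left _ _)), h2 y (hy.mono (le_max_right _ _))⟩
  | rfind a iha =>
    intro n v h
    have hmem : ∀ z : ℕ → ℕ, v ∈ ev (PFun.lift z) (rfind a) n ↔
        (∃ w ∈ ev (PFun.lift z) a (Nat.pair n v), decide (w = 0) = true) ∧
        ∀ m, m < v → ∃ w ∈ ev (PFun.lift z) a (Nat.pair n m), decide (w = 0) = false := by
      intro z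
      change v ∈ Nat.rfind (fun n_1 => (ev (PFun.lift z) a (Nat.pair n n_1)).map
        (fun m => decide (m = 0))) ↔ _
      refine Nat.mem_rfind.trans ?_
      constructor
      · rintro ⟨h1, h2⟩
        exact ⟨(Part.mem_map_iff _).1 h1, fun m hm => (Part.mem_map_iff _).1 (h2 hm)⟩
      · rintro ⟨h1, h2⟩
        exact ⟨(Part.mem_map_iff _).2 h1, fun {m} hm => (Part.mem_map_iff _).2 (h2 m hm)⟩
    obtain ⟨⟨w, hw, hw0⟩, hlt⟩ := (hmem x).1 h
    obtain ⟨N0, h0⟩ := iha _ w hw
    have key : ∀ k : ℕ, k ≤ v → ∃ N : ℕ, ∀ y : ℕ → ℕ, Agree x y N → ∀ m : ℕ, m < k →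
        ∃ w ∈ ev (PFun.lift y) a (Nat.pair n m), decide (w = 0) = false := by
      intro k
      induction k with
      | zero => exact fun _ => ⟨0, fun y _ m hm => absurd hm (Nat.not_lt_zero m)⟩
      | succ k ihk =>
        intro hk
        obtain ⟨N1, h1⟩ := ihk (Nat.le_of_succ_le hk)
        obtain ⟨w', hw', hw0'⟩ := hlt k (Nat.lt_of_succ_le hk)
        obtain ⟨N2, h2⟩ := iha _ w' hw'
        refine ⟨max N1 N2, fun y hy m hm => ?_⟩
        rcases Nat.lt_succ_iff_lt_or_eq.1 hm with hm' | rfl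
        · exact h1 y (hy.mono (le_max_left _ _)) m hm'
        · exact ⟨w', h2 y (hy.mono (le_max_right _ _)), hw0'⟩
    obtain ⟨N1, h1⟩ := key v le_rfl
    refine ⟨max N0 N1, fun y hy => (hmem y).2 ⟨⟨w, h0 y (hy.mono (le_max_left _ _)), hw0⟩, ?_⟩⟩
    intro m hm
    exact h1 y (hy.mono (le_max_right _ _)) m hm

end Cd

end Pool.Agent.U89.Muchnik
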