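import Mathlib
import Pool.Agent.U89.Muchnik.Code

set_option autoImplicit false

/-!
# A closed set of functions which is not Muchnik equivalent to any closed set of binary sequences

For a string `s` and a function `G` on strings let `Body s G` be the set of all functions `f`
extending `s` with `G (f ↾ n) ≤ f n` for all `n ≥ |s|`. For an index `c` of a Turing functional
consider the binary strings `σ` such that for every `G` some `f ∈ Body s G` satisfies `σ ⊆ Φ_c^f`.
If they form a tree without dead ends, pick a path `pick c s`. These are countably many binary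
sequences, and there is a function `h` such that none of them computes a function `x ≥ h`. If the
set `P` of all `x ≥ h` were Muchnik equivalent to a closed set `Q` of binary sequences, then by a
category argument, there would be `c`, `s` and `G` such that the `f` with `Φ_c^f ∈ Q` are dense in
`Body s G`, and since `Q` is closed, `pick c s ∈ Q`, a contradiction.
-/

namespace Pool.Agent.U89.Muchnik

open Cd

/-- the first `n` values of `f` -/
def pre {α : Type*} (f : ℕ → α) (n : ℕ) : List α := (List.range n).map f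

@[simp] theorem pre_length {α : Type*} (f : ℕ → α) (n : ℕ) : (pre f n).length = n := by
  simp [pre]

@[simp] theorem pre_getElem {α : Type*} (f : ℕ → α) (n i : ℕ) (h : i < (pre f n).length) :
    (pre f n)[i] = f i := by
  simp [pre]

theorem pre_succ {α : Type*} (f : ℕ → α) (n : ℕ) : pre f (n + 1) = pre f n ++ [f n] := by
  simp [pre, List.range_succ]

theorem pre_eq_iff {α : Type*} {f g : ℕ → α} {n : ℕ} :
    pre f n = pre g n ↔ ∀ i < n, f i = g i := by
  constructor
  · intro h i hi
    have h1 : (pre f n)[i]'(by simpa using hi) = (pre g n)[i]'(by simpa using hi) := by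
      simp only [h]
    simpa using h1
  · intro h
    apply List.ext_getElem (by simp)
    intro i h1 h2
    simp only [pre_length] at h1
    simpa using h i h1

theorem pre_prefix {α : Type*} (f : ℕ → α) {n m : ℕ} (h : n ≤ m) : pre f n <+: pre f m := by
  obtain ⟨k, rfl⟩ := Nat.exists_eq_add_of_le h
  induction k with
  | zero => exact List.prefix_rfl
  | succ k ih =>
    rw [← add_assoc, pre_succ]
    exact (ih (Nat.le_add_right _ _)).trans (List.prefix_append _ _)

/-- a chain of strings with unbounded lengths has a limit -/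
theorem chain_limit {α : Type*} (L : ℕ → List α) (hL : ∀ k, L k <+: L (k + 1))
    (hlen : ∀ n, ∃ k, n < (L k).length) : ∃ f : ℕ → α, ∀ k, pre f (L k).length = L k := by
  have hmono : ∀ j k, j ≤ k → L j <+: L k := by
    intro j k hjk
    induction hjk with
    | refl => exact List.prefix_rfl
    | step _ ih => exact ih.trans (hL _)
  choose c hc using hlen
  refine ⟨fun n => (L (c n))[n]'(hc n), fun k => ?_⟩
  apply List.ext_getElem (by simp)
  intro i h1 h2
  rw [pre_getElem]
  rcases le_total (c i) k with h | h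
  · exact (hmono _ _ h).getElem (hc i)
  · exact ((hmono _ _ h).getElem h2).symm

/-- the functions extending `s` that grow at least as fast as `G` prescribes -/
def Body (s : List ℕ) (G : List ℕ → ℕ) : Set (ℕ → ℕ) :=
  {f | pre f s.length = s ∧ ∀ n, s.length ≤ n → G (pre f n) ≤ f n}

theorem Body.nonempty (s : List ℕ) (G : List ℕ → ℕ) : (Body s G).Nonempty := by
  let L : ℕ → List ℕ := fun k => Nat.rec s (fun _ l => l ++ [G l]) k
  have hL0 : L 0 = s := rfl
  have hLs : ∀ k, L (k + 1) = L k ++ [G (L k)] := fun _ => rfl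
  have hlen : ∀ k, (L k).length = s.length + k := by
    intro k
    induction k with
    | zero => rw [hL0]; rfl
    | succ k ih => rw [hLs, List.length_append, ih]; rfl
  obtain ⟨f, hf⟩ := chain_limit L (fun k => by rw [hLs]; exact List.prefix_append _ _)
    (fun n => ⟨n + 1, by have := hlen (n + 1); omega⟩)
  refine ⟨f, by have := hf 0; rwa [hL0] at this, fun n hn => ?_⟩
  obtain ⟨k, rfl⟩ := Nat.exists_eq_add_of_le hn
  have h1 := hf k
  have h2 := hf (k + 1)
  rw [hlen k] at h1
  rw [hlen (k + 1)] at h2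
  rw [← add_assoc, pre_succ, hLs, h1] at h2
  have h3 := List.append_cancel_left h2
  rw [h1]
  simp only [List.cons.injEq, and_true] at h3
  exact h3.ge

theorem Body.mono {s : List ℕ} {G G' : List ℕ → ℕ} (h : ∀ l, G l ≤ G' l) :
    Body s G' ⊆ Body s G :=
  fun _ hf => ⟨hf.1, fun n hn => (h _).trans (hf.2 n hn)⟩

/-- restriction to a longer string -/
theorem Body.pre_subset {s : List ℕ} {G : List ℕ → ℕ} {f : ℕ → ℕ} (hf : f ∈ Body s G) {M : ℕ}
    (hM : s.length ≤ M) : s <+: pre f M ∧ Body (pre f M) G ⊆ Body s G := by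
  refine ⟨by conv_lhs => rw [← hf.1]
             exact pre_prefix f hM, fun g hg => ?_⟩
  have h1 : pre g M = pre f M := by
    have := hg.1
    rwa [pre_length] at this
  have h2 := pre_eq_iff.1 h1
  refine ⟨?_, fun n hn => ?_⟩
  · conv_rhs => rw [← hf.1]
    exact pre_eq_iff.2 fun i hi => h2 i (lt_of_lt_of_le hi hM)
  · rcases lt_or_ge n M with h | h
    · have h3 : pre g n = pre f n := pre_eq_iff.2 fun i hi => h2 i (hi.trans h)
      rw [h3, h2 n h]
      exact hf.2 n hn
    · exact hg.2 n (by rwa [pre_length])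

/-- stronger conditions -/
def Le (s' : List ℕ) (G' : List ℕ → ℕ) (s : List ℕ) (G : List ℕ → ℕ) : Prop :=
  s <+: s' ∧ Body s' G' ⊆ Body s G

theorem Le.refl (s : List ℕ) (G : List ℕ → ℕ) : Le s G s G := ⟨List.prefix_rfl, subset_rfl⟩

theorem Le.trans {s s' s'' : List ℕ} {G G' G'' : List ℕ → ℕ} (h : Le s'' G'' s' G')
    (h' : Le s' G' s G) : Le s'' G'' s G := ⟨h'.1.trans h.1, h.2.trans h'.2⟩

/-- the category argument -/
theorem category (s0 : List ℕ) (G0 : List ℕ → ℕ) (A : ℕ → Set (ℕ → ℕ))
    (hA : ∀ f ∈ Body s0 G0, ∃ e, f ∈ A e) :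
    ∃ e s G, Le s G s0 G0 ∧ ∀ s' G', Le s' G' s G → ∃ f ∈ Body s' G', f ∈ A e := by
  by_contra hcon
  push Not at hcon
  have step : ∀ (e : ℕ) (p : {p : List ℕ × (List ℕ → ℕ) // Le p.1 p.2 s0 G0}),
      ∃ q : {p : List ℕ × (List ℕ → ℕ) // Le p.1 p.2 s0 G0},
        Le q.1.1 q.1.2 p.1.1 p.1.2 ∧ p.1.1.length < q.1.1.length ∧
          ∀ f ∈ Body q.1.1 q.1.2, f ∉ A e := by
    rintro e ⟨⟨s, G⟩, hp⟩
    obtain ⟨s', G', hle, hav⟩ := hcon e s G hp
    obtain ⟨f, hf⟩ := Body.nonempty s' G'
    have h1 := Body.pre_subset hf (M := s'.length + 1) (Nat.le_succ _)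
    have hle2 : Le (pre f (s'.length + 1)) G' s' G' := h1
    refine ⟨⟨(pre f (s'.length + 1), G'), (hle2.trans hle).trans hp⟩, hle2.trans hle, ?_, ?_⟩
    · have := hle.1.length_le
      simp only [pre_length]
      omega
    · exact fun g hg => hav g (h1.2 hg)
  choose nx hnx1 hnx2 hnx3 using step
  let sq : ℕ → {p : List ℕ × (List ℕ → ℕ) // Le p.1 p.2 s0 G0} :=
    fun k => Nat.rec ⟨(s0, G0), Le.refl _ _⟩ (fun k p => nx k p) k
  have hsq : ∀ k, sq (k + 1) = nx k (sq k) := fun _ => rfl
  have hlen : ∀ n, n ≤ (sq n).1.1.length := by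
    intro n
    induction n with
    | zero => exact Nat.zero_le _
    | succ n ih =>
      rw [hsq]
      exact Nat.succ_le_of_lt (lt_of_le_of_lt ih (hnx2 n (sq n)))
  have hmono : ∀ j k, j ≤ k → Le (sq k).1.1 (sq k).1.2 (sq j).1.1 (sq j).1.2 := by
    intro j k hjk
    induction hjk with
    | refl => exact Le.refl _ _
    | step _ ih =>
      refine Le.trans ?_ ih
      rw [hsq]
      exact hnx1 _ _
  obtain ⟨f, hf⟩ := chain_limit (fun k => (sq k).1.1) (fun k => (hmono k (k + 1) (Nat.le_succ k)).1)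
    (fun n => ⟨n + 1, lt_of_lt_of_le (Nat.lt_succ_self n) (hlen _)⟩)
  have hbody : ∀ k, f ∈ Body (sq k).1.1 (sq k).1.2 := by
    intro k
    refine ⟨hf k, fun n hn => ?_⟩
    obtain ⟨g, hg⟩ := Body.nonempty (sq (max k (n + 1))).1.1 (sq (max k (n + 1))).1.2
    have hg' := (hmono k _ (le_max_left k (n + 1))).2 hg
    have hlt : n < (sq (max k (n + 1))).1.1.length :=
      lt_of_lt_of_le (lt_of_lt_of_le (Nat.lt_succ_self n) (le_max_right k (n + 1))) (hlen _)
    have hagree := pre_eq_iff.1 (hg.1.trans (hf (max k (n + 1))).symm)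
    have h1 : pre g n = pre f n := pre_eq_iff.2 fun i hi => hagree i (hi.trans hlt)
    rw [← h1, ← hagree n hlt]
    exact hg'.2 n hn
  obtain ⟨e, he⟩ := hA f (hbody 0)
  refine hnx3 e (sq e) f ?_ he
  have := hbody (e + 1)
  rwa [hsq] at this

/-- `σ` is a possible initial segment of `Φ_c^f` for `f ∈ Body s G`, for every `G` -/
def Tr (c : Cd) (s : List ℕ) (σ : List Bool) : Prop :=
  ∀ G : List ℕ → ℕ, ∃ f ∈ Body s G, ∀ i (hi : i < σ.length), (σ[i]).toNat ∈ ev (PFun.lift f) c i

open Classical in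
/-- a path through the tree -/
noncomputable def pick (c : Cd) (s : List ℕ) : ℕ → Bool :=
  if h : ∃ y : ℕ → Bool, ∀ n, Tr c s (pre y n) then Classical.choose h else fun _ => false

theorem pick_spec {c : Cd} {s : List ℕ} (h : ∃ y : ℕ → Bool, ∀ n, Tr c s (pre y n)) (n : ℕ) :
    Tr c s (pre (pick c s) n) := by
  unfold pick
  rw [dif_pos h]
  exact Classical.choose_spec h n

theorem exists_path {c : Cd} {s : List ℕ} (h0 : Tr c s [])
    (h1 : ∀ σ, Tr c s σ → ∃ b, Tr c s (σ ++ [b])) : ∃ y : ℕ → Bool, ∀ n, Tr c s (pre y n) := by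
  have h1' : ∀ σ : {σ // Tr c s σ}, ∃ b, Tr c s (σ.1 ++ [b]) := fun σ => h1 σ.1 σ.2
  choose b hb using h1'
  let sq : ℕ → {σ // Tr c s σ} := fun n => Nat.rec ⟨[], h0⟩ (fun _ σ => ⟨σ.1 ++ [b σ], hb σ⟩) n
  refine ⟨fun n => b (sq n), fun n => ?_⟩
  have : pre (fun n => b (sq n)) n = (sq n).1 := by
    induction n with
    | zero => rfl
    | succ n ih => rw [pre_succ, ih]
  rw [this]
  exact (sq n).2

/-- finite use for finitely many arguments -/
theorem use_list {f : ℕ → ℕ} {c : Cd} {σ : List Bool}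
    (h : ∀ i (hi : i < σ.length), (σ[i]).toNat ∈ ev (PFun.lift f) c i) :
    ∃ N, ∀ g, Agree f g N → ∀ i (hi : i < σ.length), (σ[i]).toNat ∈ ev (PFun.lift g) c i := by
  have h' : ∀ i : Fin σ.length, ∃ N, ∀ g, Agree f g N → (σ[i]).toNat ∈ ev (PFun.lift g) c i :=
    fun i => use f c i _ (h i i.2)
  choose N hN using h'
  refine ⟨Finset.univ.sup N, fun g hg i hi => ?_⟩
  exact hN ⟨i, hi⟩ g (hg.mono (Finset.le_sup (f := N) (Finset.mem_univ _)))

/-- a binary sequence as a function -/
def num (y : ℕ → Bool) : ℕ → ℕ := fun n => (y n).toNat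

theorem lift_inj {f g : ℕ → ℕ} (h : PFun.lift f = PFun.lift g) : f = g :=
  PFun.lift_injective h

theorem toNat_inj {a b : Bool} (h : a.toNat = num (fun _ => b) 0) : a = b := by
  cases a <;> cases b <;> simp_all [num]

theorem mem_lift {f : ℕ → ℕ} {n v : ℕ} : v ∈ PFun.lift f n ↔ v = f n := by
  simp [PFun.lift]

theorem main (Q : Set (ℕ → Bool)) (hQ : IsClosed Q) (c : Cd) (s : List ℕ) (G : List ℕ → ℕ)
    (hd : ∀ s' G', Le s' G' s G →
      ∃ f ∈ Body s' G', ∃ y ∈ Q, ev (PFun.lift f) c = PFun.lift (num y)) :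
    pick c s ∈ Q := by
  classical
  have force : ∀ σ, Tr c s σ → ∀ G' : List ℕ → ℕ, ∃ f ∈ Body s G', ∃ y ∈ Q,
      ev (PFun.lift f) c = PFun.lift (num y) ∧ ∀ i (hi : i < σ.length), σ[i] = y i := by
    intro σ hσ G'
    obtain ⟨f, hf, hfσ⟩ := hσ (fun l => max (G l) (G' l))
    obtain ⟨N, hN⟩ := use_list hfσ
    have h1 := Body.pre_subset hf (M := max N s.length) (le_max_right _ _)
    have hle : Le (pre f (max N s.length)) (fun l => max (G l) (G' l)) s G :=
      ⟨h1.1, h1.2.trans (Body.mono fun l => le_max_left _ _)⟩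
    obtain ⟨g, hg, y, hy, he⟩ := hd _ _ hle
    refine ⟨g, Body.mono (fun l => le_max_right _ _) (h1.2 hg), y, hy, he, fun i hi => ?_⟩
    have hag : Agree f g N := by
      have h2 := hg.1
      rw [pre_length] at h2
      intro i hi
      exact (pre_eq_iff.1 h2 i (lt_of_lt_of_le hi (le_max_left _ _))).symm
    have h3 := hN g hag i hi
    rw [he, mem_lift] at h3
    exact toNat_inj h3
  have h0 : Tr c s [] := by
    intro G'
    obtain ⟨f, hf, -⟩ := hd s (fun l => max (G l) (G' l))
      ⟨List.prefix_rfl, Body.mono fun l => le_max_left _ _⟩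
    exact ⟨f, Body.mono (fun l => le_max_right _ _) hf, fun i hi => absurd hi (Nat.not_lt_zero i)⟩
  have h1 : ∀ σ, Tr c s σ → ∃ b, Tr c s (σ ++ [b]) := by
    intro σ hσ
    by_contra hcon
    push Not at hcon
    have h2 : ∀ b, ∃ G : List ℕ → ℕ, ∀ f ∈ Body s G, ¬ ∀ i (hi : i < (σ ++ [b]).length),
        ((σ ++ [b])[i]).toNat ∈ ev (PFun.lift f) c i := by
      intro b
      have := hcon b
      unfold Tr at this
      push Not at this
      obtain ⟨G', hG'⟩ := this
      refine ⟨G', fun f hf hall => ?_⟩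
      obtain ⟨i, hi, hn⟩ := hG' f hf
      exact hn (hall i hi)
    choose Gb hGb using h2
    obtain ⟨f, hf, y, hy, he, hag⟩ := force σ hσ (fun l => max (Gb false l) (Gb true l))
    have hf' : f ∈ Body s (Gb (y σ.length)) := by
      cases y σ.length
      · exact Body.mono (fun l => le_max_left _ _) hf
      · exact Body.mono (fun l => le_max_right _ _) hf
    refine hGb _ f hf' fun i hi => ?_
    rw [he, mem_lift]
    show _ = (y i).toNat
    congr 1
    rcases lt_or_ge i σ.length with h | h
    · rw [List.getElem_append_left h]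
      exact hag i h
    · have hi' : i = σ.length := by
        simp only [List.length_append, List.length_cons, List.length_nil] at hi
        omega
      subst hi'
      rw [List.getElem_append_right (le_refl _)]
      simp
  have hp := pick_spec (exists_path h0 h1)
  have happ : ∀ n, ∃ y ∈ Q, ∀ i < n, pick c s i = y i := by
    intro n
    obtain ⟨f, hf, y, hy, he, hag⟩ := force _ (hp n) (fun _ => 0)
    refine ⟨y, hy, fun i hi => ?_⟩
    have := hag i (by simpa using hi)
    simpa using this
  choose q hq1 hq2 using happ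
  refine hQ.mem_of_tendsto (b := Filter.atTop) (f := q) ?_ (Filter.Eventually.of_forall hq1)
  rw [tendsto_pi_nhds]
  intro i
  refine tendsto_const_nhds.congr' ?_
  filter_upwards [Filter.eventually_gt_atTop i] with n hn
  exact hq2 n i hn

/-- There is a closed set of functions that is not Muchnik equivalent to any closed set of binary
sequences. -/
theorem exists_closed : ∃ P : Set (ℕ → ℕ), IsClosed P ∧
    ∀ Q : Set (ℕ → Bool), IsClosed Q →
      ¬ ((∀ x ∈ P, ∃ y ∈ Q, TuringReducible (PFun.lift (num y)) (PFun.lift x)) ∧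
        (∀ y ∈ Q, ∃ x ∈ P, TuringReducible (PFun.lift x) (PFun.lift (num y)))) := by
  classical
  let φ : Cd × List ℕ × Cd → ℕ → ℕ := fun t =>
    if h : ∃ x : ℕ → ℕ, ev (PFun.lift (num (pick t.1 t.2.1))) t.2.2 = PFun.lift x then
      Classical.choose h else fun _ => 0
  obtain ⟨u, hu⟩ := exists_surjective_nat (Cd × List ℕ × Cd)
  let h : ℕ → ℕ := fun n => φ (u n) n + 1
  have hh : ∀ (c : Cd) (s : List ℕ) (c' : Cd) (x : ℕ → ℕ),
      ev (PFun.lift (num (pick c s))) c' = PFun.lift x → (∀ n, h n ≤ x n) → False := by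
    intro c s c' x hx hle
    have hex : ∃ x : ℕ → ℕ, ev (PFun.lift (num (pick c s))) c' = PFun.lift x := ⟨x, hx⟩
    have h1 : φ (c, s, c') = x := by
      have h2 : φ (c, s, c') = Classical.choose hex := dif_pos hex
      rw [h2]
      exact lift_inj ((Classical.choose_spec hex).symm.trans hx)
    obtain ⟨n, hn⟩ := hu (c, s, c')
    have h3 := hle n
    have h4 : h n = x n + 1 := by
      show φ (u n) n + 1 = _
      rw [hn, h1]
    omega
  refine ⟨{x | ∀ n, h n ≤ x n}, ?_, ?_⟩
  · have : {x : ℕ → ℕ | ∀ n, h n ≤ x n} = ⋂ n, {x | h n ≤ x n} := by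
      ext x
      simp
    rw [this]
    exact isClosed_iInter fun n => isClosed_le continuous_const (continuous_apply n)
  · rintro Q hQ ⟨h1, h2⟩
    obtain ⟨d, hdsurj⟩ := exists_surjective_nat Cd
    have hbody : ∀ f ∈ Body [] (fun l => h l.length), ∀ n, h n ≤ f n := by
      intro f hf n
      have := hf.2 n (Nat.zero_le n)
      simpa only [pre_length] using this
    obtain ⟨e, s, G, hle, hd⟩ := category [] (fun l => h l.length)
      (fun e => {f | ∃ y ∈ Q, ev (PFun.lift f) (d e) = PFun.lift (num y)}) (by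
        intro f hf
        obtain ⟨y, hy, hr⟩ := h1 f (hbody f hf)
        obtain ⟨c, hc⟩ := exists_code (RecursiveIn.iff_nat.1 hr)
        obtain ⟨e, rfl⟩ := hdsurj c
        exact ⟨e, y, hy, hc⟩)
    have hmem := main Q hQ (d e) s G hd
    obtain ⟨x, hx, hr⟩ := h2 _ hmem
    obtain ⟨c', hc'⟩ := exists_code (RecursiveIn.iff_nat.1 hr)
    exact hh (d e) s c' x hc' hx

end Pool.Agent.U89.Muchnik
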